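import Pool.Agent.H184.T5.D.G020
import Pool.Agent.H184.T5.D.G042
import Pool.Agent.H184.T5.D.G129
import Pool.Agent.H184.T5.D.G131

set_option autoImplicit false

namespace Pool.Agent.H184.T5.B

open Pool.Agent.H184.T5 Pool.Agent.H805.T5

theorem p38_33_124 : BP 0x10000000000000004000004000000000 0x800000000000200000001 :=
  of_posOK (l := [⟨e100116, 20, 0x36a92a0690dccdb95e90222303880a58b94⟩, ⟨e485, 23, 0xd9ab28b0a23b74df061c57e54893197b05bebdf8⟩, ⟨e100117, 24, 0x1c9ecf21afec711692b6f14791a87906855b5a7773⟩, ⟨e204, 21, 0x76cfb3af0cdafa798e5573dcacc09ad4e031f⟩, ⟨e100099, 31, 0x3f24b336d490a332eab2538e03c6c4c77bcb09c0db51109d13ce84⟩])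
    (hcons g100116 (hcons g485 (hcons g100117 (hcons g204 (hcons g100099 hnil))))) (by decide +kernel)

end Pool.Agent.H184.T5.B

namespace Pool.Agent.H184.T5.F38_33_3

open Pool.Agent.H184.T5 Pool.Agent.H805.T5

def L : List (ℕ × ℕ) := [(0x10000000000000004000004000000000, 0x800000000000200000001)]

theorem all : ∀ p ∈ L, BP p.1 p.2 :=
  (bcons B.p38_33_124 bnil)

end Pool.Agent.H184.T5.F38_33_3
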