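import Pool.Agent.H184.T5.D.G085
import Pool.Agent.H184.T5.D.G087
import Pool.Agent.H184.T5.D.G090
import Pool.Agent.H184.T5.D.G094
import Pool.Agent.H184.T5.D.G096

set_option autoImplicit false

namespace Pool.Agent.H184.T5.B

open Pool.Agent.H184.T5 Pool.Agent.H805.T5

theorem p39_33_124 : BP 0x10000000000000004000008000000000 0x200100001 :=
  of_posOK (l := [⟨e1336, 24, 0xa5ac3a03d37302c3e8b2f5b73bf5e70c9911ea9429⟩, ⟨e1231, 27, 0xc8cb3699da8370e5d3c7afe0c288ac9468f224b02f29898⟩, ⟨e1274, 12, 0x4895323ad5ec55163068a⟩, ⟨e1196, 28, 0x114e762bb3f1856f425dfb47c35134072ccdeb8af9c043a5b⟩, ⟨e1380, 28, 0x8384deb351b4580ece9b38b1168c9db970e3bb6ead9a7df8⟩])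
    (hcons g1336 (hcons g1231 (hcons g1274 (hcons g1196 (hcons g1380 hnil))))) (by decide +kernel)

end Pool.Agent.H184.T5.B

namespace Pool.Agent.H184.T5.F39_33_3

open Pool.Agent.H184.T5 Pool.Agent.H805.T5

def L : List (ℕ × ℕ) := [(0x10000000000000004000008000000000, 0x200100001)]

theorem all : ∀ p ∈ L, BP p.1 p.2 :=
  (bcons B.p39_33_124 bnil)

end Pool.Agent.H184.T5.F39_33_3
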