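import Pool.Agent.H184.T5.D.G002
import Pool.Agent.H184.T5.D.G003
import Pool.Agent.H184.T5.D.G016
import Pool.Agent.H184.T5.D.G017
import Pool.Agent.H184.T5.D.G024

set_option autoImplicit false

namespace Pool.Agent.H184.T5.B

open Pool.Agent.H184.T5 Pool.Agent.H805.T5

theorem p7_33_124 : BP 0x10000000000000004000000000000080 0x10000000000000000200000001 :=
  of_posOK (l := [⟨e152, 22, 0x152f368089605d736bb98f0dfaf3e6cba94a851⟩, ⟨e16, 26, 0x120b7b5853cdd5528ce03bbf2d098b8d06ff8e7d962753⟩, ⟨e150, 19, 0x1121c1851a3b568c99badae4f37d219c6a⟩, ⟨e18, 26, 0xe2b25dae93328d40fe768f9a5ca409521977f9e93305b⟩, ⟨e247, 26, 0x3c2d2817d48f78a4b01129898bd15659809dda212d8e84⟩])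
    (hcons g152 (hcons g16 (hcons g150 (hcons g18 (hcons g247 hnil))))) (by decide +kernel)

end Pool.Agent.H184.T5.B

namespace Pool.Agent.H184.T5.F7_33_3

open Pool.Agent.H184.T5 Pool.Agent.H805.T5

def L : List (ℕ × ℕ) := [(0x10000000000000004000000000000080, 0x10000000000000000200000001)]

theorem all : ∀ p ∈ L, BP p.1 p.2 :=
  (bcons B.p7_33_124 bnil)

end Pool.Agent.H184.T5.F7_33_3
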