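import Pool.Agent.H184.T5.D.G006
import Pool.Agent.H184.T5.D.G022
import Pool.Agent.H184.T5.D.G026
import Pool.Agent.H184.T5.D.G027

set_option autoImplicit false

namespace Pool.Agent.H184.T5.B

open Pool.Agent.H184.T5 Pool.Agent.H805.T5

theorem p9_33_124 : BP 0x10000000000000004000000000000200 0x10000000000000000200000001 :=
  of_posOK (l := [⟨e220, 26, 0x2ecea76a5dfa0174d70fb6dcca2045950d977f9d46971f⟩, ⟨e262, 24, 0x8cdde3274fdac770f59cac66113ba901645bcda784⟩, ⟨e222, 24, 0x535a662371575a4e506bc05b0c85feb14961ed6f8⟩, ⟨e47, 24, 0xd19fbf4edcf96c38a55a8850e241064c8121e20b94⟩, ⟨e272, 21, 0x31b29c71de36130de09461bac937554628f19⟩])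
    (hcons g220 (hcons g262 (hcons g222 (hcons g47 (hcons g272 hnil))))) (by decide +kernel)

end Pool.Agent.H184.T5.B

namespace Pool.Agent.H184.T5.F9_33_3

open Pool.Agent.H184.T5 Pool.Agent.H805.T5

def L : List (ℕ × ℕ) := [(0x10000000000000004000000000000200, 0x10000000000000000200000001)]

theorem all : ∀ p ∈ L, BP p.1 p.2 :=
  (bcons B.p9_33_124 bnil)

end Pool.Agent.H184.T5.F9_33_3
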